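import Mathlib

/-!
# Matchings of primes: insertion of a new prime, and the numbers of the vectors of symbols
-/

set_option autoImplicit false

open scoped Classical

namespace Pool.Agent.U120.MF

open Finset

/-- `p` splits in `ℚ(√-7)` -/
def Spl (p : ℕ) : Prop := IsSquare (-7 : ZMod p)

/-- the local conditions -/
def Mt (T : Set ℕ) : Prop :=
  (∀ p ∈ T, ¬ ∃ y : ZMod p, y ^ 4 = -7) ∧
  (∀ p ∈ T, Spl p → ∀ l ∈ T, ¬ Spl l → IsSquare (l : ZMod p)) ∧
  (∀ p ∈ T, Spl p → ∀ q ∈ T, Spl q → ∀ r ∈ T, Spl r →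
    ¬ IsSquare (q : ZMod p) → ¬ IsSquare (r : ZMod p) → q = r)

/-- the primes `1 mod 4` -/
def P4 (p : ℕ) : Prop := p.Prime ∧ p % 4 = 1

lemma rec4 {p q : ℕ} (hp : P4 p) (hq : P4 q) : IsSquare (q : ZMod p) ↔ IsSquare (p : ZMod q) := by
  have : Fact p.Prime := ⟨hp.1⟩
  have : Fact q.Prime := ⟨hq.1⟩
  have h4 := hq.2
  exact ZMod.exists_sq_eq_prime_iff_of_mod_four_eq_one (p := p) (q := q) hp.2 (by rintro rfl; omega)

lemma not_fourth {p : ℕ} (h : ¬ Spl p) : ¬ ∃ y : ZMod p, y ^ 4 = -7 := by
  rintro ⟨y, hy⟩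
  exact h ⟨y ^ 2, by rw [← hy]; ring⟩

lemma self_sq (p : ℕ) : IsSquare (p : ZMod p) := by
  rw [ZMod.natCast_self]
  exact ⟨0, by ring⟩

lemma mt_mono {S T : Set ℕ} (h : S ⊆ T) (hT : Mt T) : Mt S :=
  ⟨fun p hp => hT.1 p (h hp), fun p hp sp l hl => hT.2.1 p (h hp) sp l (h hl),
    fun p hp sp q hq sq r hr => hT.2.2 p (h hp) sp q (h hq) sq r (h hr)⟩

/-- a new inert prime -/
lemma insert_inert {T : Set ℕ} (hT : ∀ p ∈ T, P4 p) (hM : Mt T) {p : ℕ} (hp : P4 p)
    (hs : ¬ Spl p) : Mt (insert p T) ↔ ∀ q ∈ T, Spl q → IsSquare (q : ZMod p) := by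
  constructor
  · intro h q hq sq
    rw [rec4 hp (hT q hq)]
    exact h.2.1 q (Set.mem_insert_of_mem _ hq) sq p (Set.mem_insert _ _) hs
  · intro h
    refine ⟨fun q hq => ?_, fun q hq sq l hl sl => ?_, fun q hq sq r hr sr s hs' ss h1 h2 => ?_⟩
    · rcases Set.mem_insert_iff.1 hq with e | hq'
      · rw [e]
        exact not_fourth hs
      · exact hM.1 q hq'
    · rcases Set.mem_insert_iff.1 hq with e | hq'
      · rw [e] at sq
        exact absurd sq hs
      · rcases Set.mem_insert_iff.1 hl with e | hl'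
        · rw [e, rec4 (hT q hq') hp]
          exact h q hq' sq
        · exact hM.2.1 q hq' sq l hl' sl
    · rcases Set.mem_insert_iff.1 hq with e | hq'
      · rw [e] at sq
        exact absurd sq hs
      · rcases Set.mem_insert_iff.1 hr with e | hr'
        · rw [e] at sr
          exact absurd sr hs
        · rcases Set.mem_insert_iff.1 hs' with e | hs''
          · rw [e] at ss
            exact absurd ss hs
          · exact hM.2.2 q hq' sq r hr' sr s hs'' ss h1 h2

/-- `p` has no neighbour in `T` -/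
def Free (T : Set ℕ) (p : ℕ) : Prop := ∀ q ∈ T, Spl q → IsSquare (q : ZMod p)

/-- a new split prime -/
lemma insert_split {T : Set ℕ} (hT : ∀ p ∈ T, P4 p) (hM : Mt T) {p : ℕ} (hp : P4 p) (hpT : p ∉ T)
    (hs : Spl p) : Mt (insert p T) ↔ (¬ ∃ y : ZMod p, y ^ 4 = -7) ∧
      (∀ l ∈ T, ¬ Spl l → IsSquare (l : ZMod p)) ∧
      (∀ q ∈ T, Spl q → ∀ r ∈ T, Spl r → ¬ IsSquare (q : ZMod p) → ¬ IsSquare (r : ZMod p) → q = r) ∧
      ∀ q ∈ T, Spl q → ¬ IsSquare (q : ZMod p) → Free T q := by
  have hpm : p ∈ insert p T := Set.mem_insert _ _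
  have hi : ∀ q ∈ T, q ∈ insert p T := fun q hq => Set.mem_insert_of_mem _ hq
  constructor
  · intro h
    refine ⟨h.1 p hpm, fun l hl sl => h.2.1 p hpm hs l (hi l hl) sl,
      fun q hq sq r hr sr => h.2.2 p hpm hs q (hi q hq) sq r (hi r hr) sr,
      fun q hq sq h1 r hr sr => ?_⟩
    by_contra h2
    have h3 : ¬ IsSquare (p : ZMod q) := by
      rw [← rec4 hp (hT q hq)]
      exact h1
    have h4 := h.2.2 q (hi q hq) sq p hpm hs r (hi r hr) sr h3 h2
    rw [h4] at hpT
    exact hpT hr
  · rintro ⟨h1, h2, h3, h4⟩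
    refine ⟨fun q hq => ?_, fun q hq sq l hl sl => ?_, fun q hq sq r hr sr s hs' ss g1 g2 => ?_⟩
    · rcases Set.mem_insert_iff.1 hq with e | hq'
      · rw [e]
        exact h1
      · exact hM.1 q hq'
    · have hl' : l ∈ T := by
        rcases Set.mem_insert_iff.1 hl with e | hl
        · rw [e] at sl
          exact absurd hs sl
        · exact hl
      rcases Set.mem_insert_iff.1 hq with e | hq'
      · rw [e]
        exact h2 l hl' sl
      · exact hM.2.1 q hq' sq l hl' sl
    · rcases Set.mem_insert_iff.1 hq with e | hq'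
      · rw [e] at g1 g2
        have hr' : r ∈ T := by
          rcases Set.mem_insert_iff.1 hr with e' | hr
          · rw [e'] at g1
            exact absurd (self_sq _) g1
          · exact hr
        have hs'' : s ∈ T := by
          rcases Set.mem_insert_iff.1 hs' with e' | hs'
          · rw [e'] at g2
            exact absurd (self_sq _) g2
          · exact hs'
        exact h3 r hr' sr s hs'' ss g1 g2
      · rcases Set.mem_insert_iff.1 hr with e1 | hr'
        · rcases Set.mem_insert_iff.1 hs' with e2 | hs''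
          · rw [e1, e2]
          · have h5 : ¬ IsSquare (q : ZMod p) := by
              rw [rec4 hp (hT q hq'), ← e1]
              exact g1
            exact absurd (h4 q hq' sq h5 s hs'' ss) g2
        · rcases Set.mem_insert_iff.1 hs' with e2 | hs''
          · have h5 : ¬ IsSquare (q : ZMod p) := by
              rw [rec4 hp (hT q hq'), ← e2]
              exact g2
            exact absurd (h4 q hq' sq h5 r hr' sr) g1
          · exact hM.2.2 q hq' sq r hr' sr s hs'' ss g1 g2

section count
variable {ι : Type} [Fintype ι]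

lemma zn (a : ZMod 2) : a ≠ 1 ↔ a = 0 := by
  revert a
  decide

lemma card_fun2 (α : Type) [Finite α] : Nat.card (α → ZMod 2) = 2 ^ Nat.card α := by
  rw [Nat.card_fun]
  simp

/-- the vectors which vanish on `s` -/
theorem card_inert (s : ι → Prop) :
    Nat.card {u : ι → ZMod 2 // ∀ i, s i → u i = 0} * 2 ^ Nat.card {i // s i} =
      2 ^ Fintype.card ι := by
  have e : {u : ι → ZMod 2 // ∀ i, s i → u i = 0} ≃ ({i // ¬ s i} → ZMod 2) :=
    { toFun := fun u i => u.1 i.1
      invFun := fun v => ⟨fun i => if h : s i then 0 else v ⟨i, h⟩, fun i hi => dif_pos hi⟩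
      left_inv := by
        rintro ⟨u, hu⟩
        refine Subtype.ext (funext fun i => ?_)
        show (if h : s i then (0 : ZMod 2) else u i) = u i
        by_cases h : s i
        · rw [dif_pos h, hu i h]
        · rw [dif_neg h]
      right_inv := by
        intro v
        funext i
        show (if h : s i.1 then (0 : ZMod 2) else v ⟨i.1, h⟩) = v i
        rw [dif_neg i.2] }
  rw [Nat.card_congr e, card_fun2, ← pow_add]
  congr 1
  rw [← Nat.card_sum, ← Nat.card_eq_fintype_card]
  exact Nat.card_congr ((Equiv.sumComm _ _).trans (Equiv.sumCompl s))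

/-- the pairs for a new split prime -/
theorem card_split (s m : ι → Prop) :
    Nat.card {x : (ι → ZMod 2) × ZMod 2 // x.2 = 1 ∧ (∀ i, ¬ s i → x.1 i = 0) ∧
      (∀ i, s i → ∀ j, s j → x.1 i ≠ 0 → x.1 j ≠ 0 → i = j) ∧ ∀ i, s i → x.1 i ≠ 0 → m i} =
      Nat.card {i // s i ∧ m i} + 1 := by
  rw [← Finite.card_option]
  symm
  refine Nat.card_congr (Equiv.ofBijective (fun o : Option {i // s i ∧ m i} =>
    ⟨(fun i => if ∃ j, o = some j ∧ j.1 = i then (1 : ZMod 2) else 0, 1), rfl, ?_, ?_, ?_⟩)
      ⟨?_, ?_⟩)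
  · intro i hi
    refine if_neg ?_
    rintro ⟨j, -, rfl⟩
    exact hi j.2.1
  · intro i _ j _ h1 h2
    have h1' : ∃ k, o = some k ∧ k.1 = i := by
      by_contra h
      exact h1 (if_neg h)
    have h2' : ∃ k, o = some k ∧ k.1 = j := by
      by_contra h
      exact h2 (if_neg h)
    obtain ⟨k, hk, rfl⟩ := h1'
    obtain ⟨k', hk', rfl⟩ := h2'
    rw [hk] at hk'
    rw [Option.some_injective _ hk']
  · intro i _ h1
    have h1' : ∃ k, o = some k ∧ k.1 = i := by
      by_contra h
      exact h1 (if_neg h)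
    obtain ⟨k, hk, rfl⟩ := h1'
    exact k.2.2
  · intro o o' h
    have h1 : (fun i => if ∃ j, o = some j ∧ j.1 = i then (1 : ZMod 2) else 0) =
        fun i => if ∃ j, o' = some j ∧ j.1 = i then (1 : ZMod 2) else 0 :=
      congrArg (fun x => x.1.1) h
    have key : ∀ (a b : Option {i // s i ∧ m i}),
        ((fun i => if ∃ j, a = some j ∧ j.1 = i then (1 : ZMod 2) else 0) =
          fun i => if ∃ j, b = some j ∧ j.1 = i then (1 : ZMod 2) else 0) →
        ∀ k, a = some k → b = some k := by
      intro a b hab k hk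
      have h2 := congrFun hab k.1
      rw [if_pos ⟨k, hk, rfl⟩] at h2
      have h3 : ∃ j, b = some j ∧ j.1 = k.1 := by
        by_contra h
        rw [if_neg h] at h2
        exact one_ne_zero h2
      obtain ⟨j, hj, hjk⟩ := h3
      rw [hj, Subtype.ext hjk]
    rcases o with _ | k
    · rcases o' with _ | k'
      · rfl
      · have := key _ _ h1.symm k' rfl
        exact this
    · exact (key _ _ h1 k rfl).symm
  · rintro ⟨⟨u, t⟩, h1, h2, h3, h4⟩
    simp only at h1
    subst h1
    by_cases hu : ∃ i, s i ∧ u i ≠ 0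
    · obtain ⟨i, hi, hui⟩ := hu
      refine ⟨some ⟨i, hi, h4 i hi hui⟩, Subtype.ext (Prod.ext (funext fun j => ?_) rfl)⟩
      show (if ∃ k, some (⟨i, hi, h4 i hi hui⟩ : {i // s i ∧ m i}) = some k ∧ k.1 = j then (1 : ZMod 2)
        else 0) = u j
      by_cases hij : i = j
      · subst hij
        rw [if_pos ⟨_, rfl, rfl⟩]
        have h5 := hui
        revert h5
        generalize u i = a
        revert a
        decide
      · rw [if_neg]
        · by_contra h6
          have hj : s j := by
            by_contra h7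
            exact h6 (h2 j h7).symm
          exact hij (h3 i hi j hj hui (Ne.symm h6))
        · rintro ⟨k, hk, rfl⟩
          rw [← Option.some_injective _ hk] at hij
          exact hij rfl
    · refine ⟨none, Subtype.ext (Prod.ext (funext fun j => ?_) rfl)⟩
      show (if ∃ k, (none : Option {i // s i ∧ m i}) = some k ∧ k.1 = j then (1 : ZMod 2)
        else 0) = u j
      rw [if_neg (by rintro ⟨k, hk, -⟩; exact absurd hk (by simp))]
      by_contra h6
      by_cases hj : s j
      · exact hu ⟨j, hj, Ne.symm h6⟩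
      · exact h6 (h2 j hj).symm

end count

end Pool.Agent.U120.MF
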