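import Pool.Agent.U120.MF.Comb
import Pool.Agent.U120.MF.Mt
import Pool.Agent.R413.SQ.Cor
import Pool.Agent.U80.MQ.Inf
import Pool.Agent.U80.MQ.ShaM

/-!
# The fields generated by the square roots of the primes of a matching
-/

set_option autoImplicit false

open scoped Classical

open WeierstrassCurve NumberField
open scoped symmDiff

namespace Pool.Agent.U120.MF

open Pool.Agent.TH841.NF.D (Sha)
open Pool.Agent.R413.SQ (Gd Cor.mk_iff Cor.crit Cor.det_iff Cor.rank_bsd)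
open Pool.Agent.Y703.CQ (nr)
open Pool.Agent.Y698.SG (n4)
open Pool.Agent.R413.SQ.BOX (nr_self nr_symm)
open Pool.Agent.Results.MP_4a9ea6_nt.TwoPartTwistsX49 (Adm mat)
open Pool.Agent.U80.MQ (tc Om NZ tw fin_K lf_K sqrt_prop exists_gens sha_K)

lemma nr_zero {p q : ℕ} : nr p q = 0 ↔ IsSquare (q : ZMod p) := by
  unfold nr
  by_cases h : IsSquare (q : ZMod p)
  · rw [if_pos h]
    exact ⟨fun _ => h, fun _ => rfl⟩
  · rw [if_neg h]
    exact ⟨fun h1 => absurd h1 one_ne_zero, fun h1 => absurd h1 h⟩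

lemma nr_one {p q : ℕ} : nr p q = 1 ↔ ¬ IsSquare (q : ZMod p) := by
  rw [← nr_zero]
  rcases z2 (nr p q) with h | h <;> rw [h] <;> decide

lemma n4_one {p : ℕ} : n4 p = 1 ↔ ¬ ∃ y : ZMod p, y ^ 4 = -7 := by
  unfold Pool.Agent.Y698.SG.n4
  by_cases h : ∃ y : ZMod p, y ^ 4 = -7
  · rw [if_pos h]
    exact ⟨fun h1 => absurd h1 zero_ne_one, fun h1 => absurd h h1⟩
  · rw [if_neg h]
    exact ⟨fun _ => h, fun _ => rfl⟩

lemma spl_iff {p : ℕ} (hp : P4 p) : Spl p ↔ Pool.Agent.R413.SQ.mk p = 1 := Cor.mk_iff hp.1 hp.2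

/-- the two forms of the conditions -/
theorem ma_iff {T : Set ℕ} (hT : ∀ p ∈ T, P4 p) : Ma n4 T ↔ Mt T := by
  constructor
  · rintro ⟨h1, h2, h3⟩
    refine ⟨fun p hp => ?_, fun p hp sp l hl sl => ?_, fun p hp sp q hq sq r hr sr g1 g2 => ?_⟩
    · by_cases sp : Spl p
      · exact n4_one.1 (h1 p hp ((spl_iff (hT p hp)).1 sp))
      · exact not_fourth sp
    · exact nr_zero.1 (h2 p hp ((spl_iff (hT p hp)).1 sp) l hl
        fun h => sl ((spl_iff (hT l hl)).2 h))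
    · exact h3 p hp ((spl_iff (hT p hp)).1 sp) q hq ((spl_iff (hT q hq)).1 sq) r hr
        ((spl_iff (hT r hr)).1 sr) (nr_one.2 g1) (nr_one.2 g2)
  · rintro ⟨h1, h2, h3⟩
    refine ⟨fun p hp _ => n4_one.2 (h1 p hp), fun p hp sp l hl sl => ?_,
      fun p hp sp q hq sq r hr sr g1 g2 => ?_⟩
    · exact nr_zero.2 (h2 p hp ((spl_iff (hT p hp)).2 sp) l hl
        fun h => sl ((spl_iff (hT l hl)).1 h))
    · exact h3 p hp ((spl_iff (hT p hp)).2 sp) q hq ((spl_iff (hT q hq)).2 sq) r hr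
        ((spl_iff (hT r hr)).2 sr) (nr_one.1 g1) (nr_one.1 g2)

lemma prod_adm {U : Finset ℕ} (h : ∀ p ∈ U, P4 p) :
    Adm (∏ p ∈ U, p) ∧ (∏ p ∈ U, p).primeFactors = U := by
  have h1 : (∏ p ∈ U, p).primeFactors = U := Nat.primeFactors_prod fun p hp => (h p hp).1
  refine ⟨⟨?_, fun p hp => ?_⟩, h1⟩
  · refine Finset.squarefree_prod_of_pairwise_isCoprime ?_ fun p hp => (h p hp).1.squarefree
    intro p hp q hq hpq
    exact Nat.coprime_iff_isRelPrime.1 ((Nat.coprime_primes (h p hp).1 (h q hq).1).2 hpq)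
  · rw [h1] at hp
    exact (h p hp).2

/-- trivial 2-part, over `ℚ` -/
def TT (D : ℕ) : Prop :=
  Finite (tc D ℚ).toAffine.Point ∧ ∀ x : Sha (tc D ℚ), 2 • x = 0 → x = 0

lemma tt_gd {U : Finset ℕ} (h : ∀ p ∈ U, P4 p) : TT (∏ p ∈ U, p) ↔ Gd n4 U := by
  obtain ⟨h1, h2⟩ := prod_adm h
  have h3 := (Cor.crit h1).trans (Cor.det_iff h1)
  rw [h2] at h3
  exact h3

lemma symm4 {T : Set ℕ} (hT : ∀ p ∈ T, P4 p) : ∀ p ∈ T, ∀ q ∈ T, nr p q = nr q p := by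
  intro p hp q hq
  have h4 := (hT q hq).2
  exact nr_symm (hT p hp).1 (hT p hp).2 (hT q hq).1 (by rintro rfl; omega)

/-- **the classification** -/
theorem classify {T : Set ℕ} (hT : ∀ p ∈ T, P4 p) :
    ((∀ U : Finset ℕ, (U : Set ℕ) ⊆ T → TT (∏ p ∈ U, p)) ↔ Mt T) ∧
    ((∀ U : Finset ℕ, (U : Set ℕ) ⊆ T → U.card ≤ 3 → TT (∏ p ∈ U, p)) ↔ Mt T) := by
  have h := her_iff (f := n4) (fun p _ => nr_self p) (symm4 hT)
  have key : ∀ U : Finset ℕ, (U : Set ℕ) ⊆ T → (TT (∏ p ∈ U, p) ↔ Gd n4 U) := fun U hU =>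
    tt_gd fun p hp => hT p (hU (Finset.mem_coe.2 hp))
  rw [ma_iff hT] at h
  refine ⟨?_, ?_⟩
  · rw [← h.1]
    exact forall₂_congr fun U hU => key U hU
  · rw [← h.2]
    exact forall₂_congr fun U hU => forall_congr' fun _ => key U hU

/-- three primes which are nonresidues of each other -/
theorem triple_bad {p q r : ℕ} (hp : P4 p ∧ Spl p ∧ ¬ ∃ y : ZMod p, y ^ 4 = -7)
    (hq : P4 q ∧ Spl q ∧ ¬ ∃ y : ZMod q, y ^ 4 = -7)
    (hr : P4 r ∧ Spl r ∧ ¬ ∃ y : ZMod r, y ^ 4 = -7) (hpq : p ≠ q) (hpr : p ≠ r) (hqr : q ≠ r)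
    (h1 : ¬ IsSquare (q : ZMod p)) (h2 : ¬ IsSquare (r : ZMod p)) : ¬ TT (p * q * r) := by
  have e : p * q * r = ∏ x ∈ ({p, q, r} : Finset ℕ), x := by
    rw [Finset.prod_insert (by simp [hpq, hpr]), Finset.prod_pair hqr, mul_assoc]
  have hU : ∀ x ∈ ({p, q, r} : Finset ℕ), P4 x := by
    intro x hx
    rcases Finset.mem_insert.1 hx with h | hx
    · rw [h]
      exact hp.1
    · rcases Finset.mem_insert.1 hx with h | hx
      · rw [h]
        exact hq.1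
      · rw [Finset.mem_singleton.1 hx]
        exact hr.1
  rw [e, tt_gd hU]
  have hs := symm4 (T := (({p, q, r} : Finset ℕ) : Set ℕ)) fun x hx => hU x (Finset.mem_coe.1 hx)
  exact not_triple (fun x hx y hy => hs x (Finset.mem_coe.2 hx) y (Finset.mem_coe.2 hy))
    (fun x _ => nr_self x) ((spl_iff hp.1).1 hp.2.1) ((spl_iff hq.1).1 hq.2.1)
    ((spl_iff hr.1).1 hr.2.1) (n4_one.2 hp.2.2) (n4_one.2 hq.2.2) (n4_one.2 hr.2.2) hpq hpr hqr
    (nr_one.2 h1) (nr_one.2 h2)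

/-- the field generated by the square roots of the elements of `T` -/
noncomputable def KT (T : Set ℕ) : IntermediateField ℚ ℂ :=
  IntermediateField.adjoin ℚ {z : ℂ | ∃ q ∈ T, z ^ 2 = (q : ℂ)}

/-- a number field inside the field -/
theorem sub_KT {T : Set ℕ} (K : IntermediateField ℚ ℂ) [FiniteDimensional ℚ K] (hK : K ≤ KT T) :
    ∃ P : Finset ℕ, (P : Set ℕ) ⊆ T ∧ K ≤ Om P := by
  obtain ⟨Z0, h1, h2⟩ := Pool.Agent.Y18.NF.finite_gen K _ hK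
  have h3 : ∀ z : ℂ, ∃ q : ℕ, z ∈ Z0 → q ∈ T ∧ z ^ 2 = (q : ℂ) := by
    intro z
    by_cases hz : z ∈ Z0
    · obtain ⟨q, hq⟩ := h1 hz
      exact ⟨q, fun _ => hq⟩
    · exact ⟨0, fun h => absurd h hz⟩
  choose q hq using h3
  refine ⟨Z0.image q, fun r hr => ?_, h2.trans ?_⟩
  · obtain ⟨z, hz, rfl⟩ := Finset.mem_image.1 (Finset.mem_coe.1 hr)
    exact (hq z hz).1
  · unfold Om
    refine IntermediateField.adjoin.mono ℚ _ _ fun z hz => ?_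
    exact ⟨q z, Finset.mem_image_of_mem q hz, (hq z hz).2⟩

/-- the field has infinite degree if `T` is infinite -/
theorem KT_inf {T : Set ℕ} (hT : ∀ p ∈ T, P4 p) (hinf : T.Infinite) :
    ¬ FiniteDimensional ℚ (KT T) := by
  intro hfd
  let x : T → ℂ := fun q => ((Real.sqrt (q : ℕ) : ℝ) : ℂ)
  have hx : ∀ q, x q * x q = algebraMap ℚ ℂ ((q : ℕ) : ℚ) := by
    intro q
    show ((Real.sqrt (q : ℕ) : ℝ) : ℂ) * ((Real.sqrt (q : ℕ) : ℝ) : ℂ) = _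
    rw [← Complex.ofReal_mul, Real.mul_self_sqrt (Nat.cast_nonneg _)]
    simp
  have hli : LinearIndependent ℚ x := by
    refine Pool.Agent.N770.linearIndependent_sqrt two_ne_zero x (fun q => ⟨_, hx q⟩) (fun q h0 => ?_)
      (fun p q hpq a => sqrt_prop (hT p p.2).1 (hT q q.2).1 (fun h => hpq (Subtype.ext h)) a)
    have h1 := hx q
    rw [h0, zero_mul] at h1
    have h2 : (algebraMap ℚ ℂ ((q : ℕ) : ℚ)) = ((q : ℕ) : ℂ) := by simp
    rw [h2] at h1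
    exact (hT q q.2).1.ne_zero (by exact_mod_cast h1.symm)
  have hmem : ∀ q, x q ∈ KT T := by
    intro q
    refine IntermediateField.subset_adjoin ℚ _ ⟨q.1, q.2, ?_⟩
    rw [sq, hx]
    simp
  let y : T → KT T := fun q => ⟨x q, hmem q⟩
  have hy : LinearIndependent ℚ y := by
    refine LinearIndependent.of_comp (KT T).val.toLinearMap ?_
    exact hli
  have hfin : Finite T := hy.finite
  exact hinf (Set.finite_coe_iff.1 hfin)

/-- the twists of a member of the group -/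
lemma tw_mem {T : Set ℕ} (hT : ∀ p ∈ T, P4 p) {S U : Finset ℕ} (hS : (S : Set ℕ) ⊆ T)
    (hU : (U : Set ℕ) ⊆ T) : tw (∏ q ∈ S, q) (∏ q ∈ U, q) = ∏ q ∈ U ∆ S, q := by
  have hS' : ∀ p ∈ S, P4 p := fun p hp => hT p (hS (Finset.mem_coe.2 hp))
  have hU' : ∀ p ∈ U, P4 p := fun p hp => hT p (hU (Finset.mem_coe.2 hp))
  obtain ⟨a1, a2⟩ := prod_adm hS'
  obtain ⟨b1, b2⟩ := prod_adm hU'
  have h1 := Pool.Agent.R413.SQ.Joint.adm_tw a1 b1
  have h2 := Pool.Agent.R413.SQ.Joint.tw_pf a1 b1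
  have e : tw (∏ q ∈ S, q) (∏ q ∈ U, q) =
    Pool.Agent.R413.SQ.Joint.tw (∏ q ∈ S, q) (∏ q ∈ U, q) := rfl
  rw [e, ← Nat.prod_primeFactors_of_squarefree h1.1, h2, a2, b2]

lemma symm_sub {T : Set ℕ} {S U : Finset ℕ} (hS : (S : Set ℕ) ⊆ T) (hU : (U : Set ℕ) ⊆ T) :
    ((U ∆ S : Finset ℕ) : Set ℕ) ⊆ T := by
  intro p hp
  rcases Finset.mem_symmDiff.1 (Finset.mem_coe.1 hp) with h | h
  · exact hU (Finset.mem_coe.2 h.1)
  · exact hS (Finset.mem_coe.2 h.1)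

/-- the `L`-function of a good member -/
lemma nz_of {D : ℕ} (hA : Adm D) (h : Gd n4 D.primeFactors) : NZ D := by
  obtain ⟨F, g1, g2, g3, -⟩ := Cor.rank_bsd hA ((Cor.det_iff hA).2 h)
  exact ⟨F, g1, g2, (g1.analyticAt 1).analyticOrderAt_eq_zero.1 g3⟩

/-- **the fields** -/
theorem fields {T : Set ℕ} (hT : ∀ p ∈ T, P4 p) (hM : Mt T) {U : Finset ℕ} (hU : (U : Set ℕ) ⊆ T)
    (K : IntermediateField ℚ ℂ) (hK : K ≤ KT T) [NumberField K] :
    Finite (tc (∏ p ∈ U, p) K).toAffine.Point ∧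
    (∃ G : ℂ → ℂ, Differentiable ℂ G ∧ (∀ s : ℂ, 3 / 2 < s.re →
      HasProd (Pool.Agent.U80.MQ.factor (K := K) (Pool.Agent.U80.MQ.A (∏ p ∈ U, p))
        (Pool.Agent.U80.MQ.B (∏ p ∈ U, p)) s) (G s)) ∧ G 1 ≠ 0) ∧
    ∀ (k : ℕ) (x : Sha (tc (∏ p ∈ U, p) K)), (2 ^ k : ℕ) • x = 0 → Module.finrank ℚ K • x = 0 := by
  have hfd : FiniteDimensional ℚ K := NumberField.to_finiteDimensional
  obtain ⟨P, hP1, hP2⟩ := sub_KT K hK
  have hP' : ∀ q ∈ P, P4 q := fun q hq => hT q (hP1 (Finset.mem_coe.2 hq))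
  have hU' : ∀ q ∈ U, P4 q := fun q hq => hT q (hU (Finset.mem_coe.2 hq))
  have hA := (prod_adm hU').1
  have hG : ∀ S, S ⊆ P → Gd n4 (U ∆ S) ∧ ∀ q ∈ U ∆ S, P4 q := by
    intro S hS
    have hS' : (S : Set ℕ) ⊆ T := fun q hq => hP1 (hS (Finset.mem_coe.1 hq))
    have h1 := symm_sub hS' hU
    exact ⟨gd_of_ma ((ma_iff hT).2 hM) (symm4 hT) h1, fun q hq => hT q (h1 (Finset.mem_coe.2 hq))⟩
  have hTT : ∀ S, S ⊆ P → TT (tw (∏ q ∈ S, q) (∏ q ∈ U, q)) := by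
    intro S hS
    have hS' : (S : Set ℕ) ⊆ T := fun q hq => hP1 (hS (Finset.mem_coe.1 hq))
    rw [tw_mem hT hS' hU]
    exact (tt_gd (hG S hS).2).2 (hG S hS).1
  refine ⟨fin_K (fun q hq => (hP' q hq).1) hA.1.ne_zero (fun S hS => (hTT S hS).1) K hP2,
    lf_K P (fun q hq => hP' q hq) hA.1 (fun S hS => ?_) K hP2, fun k x hx => ?_⟩
  · have hS' : (S : Set ℕ) ⊆ T := fun q hq => hP1 (hS (Finset.mem_coe.1 hq))
    rw [tw_mem hT hS' hU]
    obtain ⟨a1, a2⟩ := prod_adm (hG S hS).2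
    refine nz_of a1 ?_
    rw [a2]
    exact (hG S hS).1
  · obtain ⟨n, S, r, hS, -, hr, hgen, hdeg⟩ := exists_gens K hP2
    rw [hdeg]
    exact sha_K (fun q hq => (hP' q hq).1.ne_zero) hA.1.ne_zero (fun T hT => (hTT T hT).2) n S hS
      K r hr hgen (tc (∏ p ∈ U, p) K) (by
        refine ⟨one_ne_zero, ?_, ?_, ?_, ?_, ?_⟩ <;>
          simp [tc, Pool.Agent.U80.MQ.A, Pool.Agent.U80.MQ.B, Pool.Agent.R413.SQ.Cor.ES,
            Pool.Agent.R413.SQ.Cor.a, Pool.Agent.R413.SQ.Cor.b]) k x hx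

end Pool.Agent.U120.MF
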