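import Pool.Agent.U120.MF.Law

/-!
# Dense sets of primes; cliques
-/

set_option autoImplicit false

open scoped Classical

namespace Pool.Agent.U120.MF

open Finset Filter Topology
open Pool.Agent.U687.JT (nr2 n47 bad bad_spec quad_inert quad_split)

/-- the number of the elements of `A` up to `X` -/
noncomputable def cn (A : Set ℕ) (X : ℕ) : ℕ := ((Icc 1 X).filter fun p => p ∈ A).card

/-- positive upper density relative to the primes -/
def PU (A : Set ℕ) : Prop := ∃ δ : ℝ, 0 < δ ∧ ∀ X₀ : ℕ, ∃ X : ℕ, X₀ ≤ X ∧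
  δ * (Nat.primeCounting X : ℝ) ≤ (cn A X : ℝ)

lemma pc_large (C : ℝ) : ∃ X₀ : ℕ, ∀ X : ℕ, X₀ ≤ X → C < (Nat.primeCounting X : ℝ) := by
  have h := (tendsto_natCast_atTop_atTop (R := ℝ)).comp Nat.tendsto_primeCounting
  exact eventually_atTop.1 (h.eventually_gt_atTop C)

lemma cn_mono {A B : Set ℕ} (h : A ⊆ B) (X : ℕ) : cn A X ≤ cn B X :=
  Finset.card_le_card fun p hp => by
    rw [Finset.mem_filter] at hp ⊢
    exact ⟨hp.1, h hp.2⟩

lemma pu_infinite {A : Set ℕ} (h : PU A) : A.Infinite := by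
  intro hf
  obtain ⟨δ, hδ, h⟩ := h
  obtain ⟨X₀, h0⟩ := pc_large ((hf.toFinset.card : ℝ) / δ)
  obtain ⟨X, hX, h1⟩ := h X₀
  have h2 : cn A X ≤ hf.toFinset.card := Finset.card_le_card fun p hp => by
    rw [Finset.mem_filter] at hp
    exact hf.mem_toFinset.2 hp.2
  have h3 := h0 X hX
  rw [div_lt_iff₀ hδ] at h3
  have h4 : (cn A X : ℝ) ≤ hf.toFinset.card := by exact_mod_cast h2
  linarith

/-- the number of the split primes is at most the number of the primes -/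
lemma den_le (C : ℕ → Prop) (X : ℕ) :
    ((Icc 1 X).filter fun l => l.Prime ∧ C l).card ≤ Nat.primeCounting X := by
  rw [Nat.primeCounting, Nat.primeCounting', Nat.count_eq_card_filter_range]
  refine Finset.card_le_card fun p hp => ?_
  rw [Finset.mem_filter, Finset.mem_Icc] at hp
  rw [Finset.mem_filter, Finset.mem_range]
  exact ⟨by omega, hp.2.1⟩

/-- **the step** -/
theorem step {A : Set ℕ} (hA : ∀ p ∈ A, P4 p ∧ Spl p) (h : PU A) :
    ∃ p ∈ A, PU {q | q ∈ A ∧ p < q ∧ IsSquare (q : ZMod p)} := by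
  by_contra hcon
  push Not at hcon
  have hinf := pu_infinite h
  obtain ⟨δ, hδ, hX⟩ := h
  obtain ⟨m, hm⟩ : ∃ m : ℕ, (1 / 2 : ℝ) ^ m < δ / 4 :=
    exists_pow_lt_of_lt_one (by positivity) (by norm_num)
  obtain ⟨P, hPA, hPm⟩ := hinf.exists_subset_card_eq m
  have hP : ∀ r ∈ P, P4 r := fun r hr => (hA r (hPA (Finset.mem_coe.2 hr))).1
  have h1 := quad_split P hP 1 one_pos (fun x => ∀ i : P, x.1 i ≠ 0)
    (fun p => ∀ r ∈ P, ¬ IsSquare (r : ZMod p)) (by
      intro p hp _ _ _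
      show (∀ i : P, nr2 p i ≠ 0) ↔ _
      simp only [ne_eq, nr2_zero]
      exact ⟨fun h q hq => h ⟨q, hq⟩, fun h i => h i i.2⟩)
  have hc : Nat.card {x : (P → ZMod 2) × ZMod 2 // ∀ i : P, x.1 i ≠ 0} = 2 := by
    have e : {x : (P → ZMod 2) × ZMod 2 // ∀ i : P, x.1 i ≠ 0} ≃ ZMod 2 :=
      { toFun := fun x => x.1.2
        invFun := fun t => ⟨(fun _ => 1, t), fun _ => one_ne_zero⟩
        left_inv := by
          rintro ⟨⟨u, t⟩, hu⟩
          refine Subtype.ext (Prod.ext (funext fun i => ?_) rfl)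
          have h2 := hu i
          show (1 : ZMod 2) = u i
          revert h2
          show u i ≠ 0 → _
          generalize u i = a
          revert a
          decide
        right_inv := fun _ => rfl }
    rw [Nat.card_congr e]
    simp
  rw [hc, hPm] at h1
  have hlim : ((2 : ℕ) : ℝ) / 2 ^ (m + 1) < δ / 4 := by
    refine lt_of_eq_of_lt ?_ hm
    rw [pow_succ]
    push_cast
    field_simp
    rw [← mul_pow]
    norm_num
  obtain ⟨X1, hX1⟩ := eventually_atTop.1 (h1.eventually (gt_mem_nhds hlim))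
  -- the sets `A_p`
  have h2 : ∀ p ∈ P, ∃ X₀ : ℕ, ∀ X : ℕ, X₀ ≤ X →
      (cn {q | q ∈ A ∧ p < q ∧ IsSquare (q : ZMod p)} X : ℝ) <
        δ / (4 * (m + 1)) * (Nat.primeCounting X : ℝ) := by
    intro p hp
    have h3 := hcon p (hPA (Finset.mem_coe.2 hp))
    unfold PU at h3
    push Not at h3
    exact h3 (δ / (4 * (m + 1))) (by positivity)
  have h2' : ∀ p : ℕ, ∃ X₀ : ℕ, p ∈ P → ∀ X : ℕ, X₀ ≤ X →
      (cn {q | q ∈ A ∧ p < q ∧ IsSquare (q : ZMod p)} X : ℝ) <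
        δ / (4 * (m + 1)) * (Nat.primeCounting X : ℝ) := by
    intro p
    by_cases hp : p ∈ P
    · obtain ⟨X₀, h3⟩ := h2 p hp
      exact ⟨X₀, fun _ => h3⟩
    · exact ⟨0, fun h => absurd h hp⟩
  choose X2 hX2 using h2'
  set M : ℕ := P.sup id with hM
  obtain ⟨X3, hX3⟩ := pc_large ((M : ℝ) / (δ / 2))
  obtain ⟨X, hXl, hXc⟩ := hX (max X1 (max (P.sup X2) X3))
  have g1 : X1 ≤ X := le_trans (le_max_left _ _) hXl
  have g2 : P.sup X2 ≤ X := le_trans (le_trans (le_max_left _ _) (le_max_right _ _)) hXl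
  have g3 : X3 ≤ X := le_trans (le_trans (le_max_right _ _) (le_max_right _ _)) hXl
  have hsub : ((Icc 1 X).filter fun p => p ∈ A) ⊆
      ((Icc 1 X).filter fun l => l.Prime ∧ l % 4 = 1 ∧ IsSquare (-7 : ZMod l) ∧
        ∀ r ∈ P, ¬ IsSquare (r : ZMod l)) ∪ (Icc 1 M ∪ P.biUnion fun p =>
          (Icc 1 X).filter fun q => q ∈ {q | q ∈ A ∧ p < q ∧ IsSquare (q : ZMod p)}) := by
    intro q hq
    rw [Finset.mem_filter] at hq
    rw [Finset.mem_union, Finset.mem_union]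
    by_cases hqM : q ≤ M
    · exact Or.inr (Or.inl (Finset.mem_Icc.2 ⟨(Finset.mem_Icc.1 hq.1).1, hqM⟩))
    · have hlt : ∀ r ∈ P, r < q := fun r hr =>
        lt_of_le_of_lt (Finset.le_sup (f := id) hr) (not_le.1 hqM)
      by_cases hex : ∃ r ∈ P, IsSquare (q : ZMod r)
      · obtain ⟨r, hr, hs⟩ := hex
        exact Or.inr (Or.inr (Finset.mem_biUnion.2 ⟨r, hr, Finset.mem_filter.2
          ⟨hq.1, hq.2, hlt r hr, hs⟩⟩))
      · refine Or.inl (Finset.mem_filter.2 ⟨hq.1, (hA q hq.2).1.1, (hA q hq.2).1.2, (hA q hq.2).2,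
          fun r hr h3 => hex ⟨r, hr, ?_⟩⟩)
        rw [rec4 (hP r hr) (hA q hq.2).1]
        exact h3
  have hcard := (Finset.card_le_card hsub).trans ((Finset.card_union_le _ _).trans
    (Nat.add_le_add_left ((Finset.card_union_le _ _).trans
      (Nat.add_le_add_left Finset.card_biUnion_le _)) _))
  have hcardR : (cn A X : ℝ) ≤ (((Icc 1 X).filter fun l => l.Prime ∧ l % 4 = 1 ∧
      IsSquare (-7 : ZMod l) ∧ ∀ r ∈ P, ¬ IsSquare (r : ZMod l)).card : ℝ) + ((M : ℝ) +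
        ∑ p ∈ P, (cn {q | q ∈ A ∧ p < q ∧ IsSquare (q : ZMod p)} X : ℝ)) := by
    have h4 : (Icc 1 M).card = M := by simp
    rw [h4] at hcard
    have h5 : cn A X ≤ ((Icc 1 X).filter fun l => l.Prime ∧ l % 4 = 1 ∧
      IsSquare (-7 : ZMod l) ∧ ∀ r ∈ P, ¬ IsSquare (r : ZMod l)).card + (M +
        ∑ p ∈ P, cn {q | q ∈ A ∧ p < q ∧ IsSquare (q : ZMod p)} X) := by
      unfold cn
      convert hcard
      rfl
    exact_mod_cast h5
  have hsum : ∑ p ∈ P, (cn {q | q ∈ A ∧ p < q ∧ IsSquare (q : ZMod p)} X : ℝ) ≤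
      δ / 4 * (Nat.primeCounting X : ℝ) := by
    have h4 : ∑ p ∈ P, (cn {q | q ∈ A ∧ p < q ∧ IsSquare (q : ZMod p)} X : ℝ) ≤
        ∑ _p ∈ P, δ / (4 * (m + 1)) * (Nat.primeCounting X : ℝ) :=
      Finset.sum_le_sum fun p hp =>
        (hX2 p hp X (le_trans (Finset.le_sup (f := X2) hp) g2)).le
    refine h4.trans ?_
    rw [Finset.sum_const, hPm, nsmul_eq_mul]
    have h5 : (m : ℝ) * (δ / (4 * (m + 1))) ≤ δ / 4 := by
      rw [← mul_div_assoc, div_le_div_iff₀ (by positivity) (by norm_num)]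
      nlinarith
    calc (m : ℝ) * (δ / (4 * (m + 1)) * (Nat.primeCounting X : ℝ)) =
        ((m : ℝ) * (δ / (4 * (m + 1)))) * (Nat.primeCounting X : ℝ) := by ring
      _ ≤ δ / 4 * (Nat.primeCounting X : ℝ) :=
        mul_le_mul_of_nonneg_right h5 (Nat.cast_nonneg _)
  have hnum : (((Icc 1 X).filter fun l => l.Prime ∧ l % 4 = 1 ∧
      IsSquare (-7 : ZMod l) ∧ ∀ r ∈ P, ¬ IsSquare (r : ZMod l)).card : ℝ) ≤
        δ / 4 * (Nat.primeCounting X : ℝ) := by
    have h4 := hX1 X g1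
    set a : ℕ := ((Icc 1 X).filter fun l => l.Prime ∧ l % 4 = 1 ∧
      IsSquare (-7 : ZMod l) ∧ ∀ r ∈ P, ¬ IsSquare (r : ZMod l)).card with ha
    set b : ℕ := ((Icc 1 X).filter fun l => l.Prime ∧ l % 4 = 1 ∧
      IsSquare (-7 : ZMod l)).card with hb
    have hab : a ≤ b := Finset.card_le_card fun l hl => by
      rw [Finset.mem_filter] at hl ⊢
      exact ⟨hl.1, hl.2.1, hl.2.2.1, hl.2.2.2.1⟩
    have hb2 : b ≤ Nat.primeCounting X := by
      rw [hb]
      convert den_le (fun l => l % 4 = 1 ∧ IsSquare (-7 : ZMod l)) X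
    have hb3 : (b : ℝ) ≤ (Nat.primeCounting X : ℝ) := by exact_mod_cast hb2
    rcases Nat.eq_zero_or_pos b with h0 | h0
    · have : a = 0 := by omega
      rw [this]
      push_cast
      positivity
    · have h0' : (0 : ℝ) < b := by exact_mod_cast h0
      have h5 : (a : ℝ) / b < δ / 4 := by
        rw [ha, hb]
        convert h4
        rfl
      rw [div_lt_iff₀ h0'] at h5
      exact h5.le.trans (mul_le_mul_of_nonneg_left hb3 (by positivity))
  have hlast := hX3 X g3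
  rw [div_lt_iff₀ (by positivity)] at hlast
  nlinarith

/-- **the independent set** -/
theorem dense {A : Set ℕ} (hA : ∀ p ∈ A, P4 p ∧ Spl p) (h : PU A) :
    ∃ T ⊆ A, T.Infinite ∧ ∀ p ∈ T, ∀ q ∈ T, p < q → IsSquare (q : ZMod p) := by
  have hstep : ∀ B : {B : Set ℕ // B ⊆ A ∧ PU B}, ∃ p ∈ B.1,
      PU {q | q ∈ B.1 ∧ p < q ∧ IsSquare (q : ZMod p)} :=
    fun B => step (fun p hp => hA p (B.2.1 hp)) B.2.2
  choose pt hpt using hstep
  let nxt : {B : Set ℕ // B ⊆ A ∧ PU B} → {B : Set ℕ // B ⊆ A ∧ PU B} := fun B =>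
    ⟨{q | q ∈ B.1 ∧ pt B < q ∧ IsSquare (q : ZMod (pt B))}, fun q hq => B.2.1 hq.1, (hpt B).2⟩
  let sq : ℕ → {B : Set ℕ // B ⊆ A ∧ PU B} := fun n => nxt^[n] ⟨A, subset_rfl, h⟩
  have hsucc : ∀ n, sq (n + 1) = nxt (sq n) := fun n => Function.iterate_succ_apply' nxt n _
  have hmono : ∀ n k, (sq (n + k)).1 ⊆ (sq n).1 := by
    intro n k
    induction k with
    | zero => exact subset_rfl
    | succ k ih =>
      have e : sq (n + (k + 1)) = nxt (sq (n + k)) := hsucc (n + k)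
      rw [e]
      exact fun q hq => ih hq.1
  have hrel : ∀ n m, n < m → pt (sq n) < pt (sq m) ∧ IsSquare ((pt (sq m) : ℕ) : ZMod (pt (sq n))) := by
    intro n m hnm
    obtain ⟨k, rfl⟩ : ∃ k, m = n + 1 + k := ⟨m - (n + 1), by omega⟩
    have h1 : pt (sq (n + 1 + k)) ∈ (sq (n + 1)).1 := hmono (n + 1) k (hpt _).1
    rw [hsucc n] at h1
    exact h1.2
  have hmonoF : StrictMono fun n => pt (sq n) := fun n m hnm => (hrel n m hnm).1
  refine ⟨Set.range fun n => pt (sq n), ?_, Set.infinite_range_of_injective hmonoF.injective, ?_⟩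
  · rintro _ ⟨n, rfl⟩
    exact (sq n).2.1 (hpt _).1
  · rintro _ ⟨n, rfl⟩ _ ⟨m, rfl⟩ hlt
    exact (hrel n m (hmonoF.lt_iff_lt.1 hlt)).2

end Pool.Agent.U120.MF
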