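import Pool.Agent.R413.SQ.Stm

/-!
# Sets of primes all of whose finite subsets are good

`Gd f U` (starting library, `R413/SQ/Stm`) says that the symmetric matrix over the field with two elements
attached to the finite set `U` of primes is nonsingular. Here: all finite subsets of `T` are good if and only
if those with at most three elements are, and if and only if the graph of the nonresidues on the primes of `T`
which split in `ℚ(√-7)` is a matching, the inert primes of `T` are residues modulo the split ones, and `f = 1`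
on the split ones.
-/

set_option autoImplicit false

open scoped Classical

namespace Pool.Agent.U120.MF

open Finset
open Pool.Agent.R413.SQ (Gd Sol cu mk)
open Pool.Agent.Y703.CQ (nr)

/-- the conditions -/
def Ma (f : ℕ → ZMod 2) (T : Set ℕ) : Prop :=
  (∀ p ∈ T, mk p = 1 → f p = 1) ∧
  (∀ p ∈ T, mk p = 1 → ∀ l ∈ T, mk l ≠ 1 → nr p l = 0) ∧
  (∀ p ∈ T, mk p = 1 → ∀ q ∈ T, mk q = 1 → ∀ r ∈ T, mk r = 1 → nr p q = 1 → nr p r = 1 → q = r)

lemma z2 (a : ZMod 2) : a = 0 ∨ a = 1 := by
  revert a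
  decide

lemma z2_add (a : ZMod 2) : a + a = 0 := by
  revert a
  decide

/-- the row of `p`, if `p` has the neighbour `q` -/
lemma row {f : ℕ → ZMod 2} {T : Set ℕ} (h : Ma f T) {U : Finset ℕ} (hU : (U : Set ℕ) ⊆ T)
    {x : ℕ → ZMod 2} (hx : Sol f U x) {p q : ℕ} (hp : p ∈ U) (hq : q ∈ U) (mp : mk p = 1)
    (mq : mk q = 1) (hpq : nr p q = 1) : x q = 0 := by
  have h1 := hx p hp mp
  have h2 : ∑ r ∈ U, nr p r * (cu x r + x p) = nr p q * (cu x q + x p) := by
    refine Finset.sum_eq_single q (fun r hr hrq => ?_) fun h' => absurd hq h'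
    by_cases mr : mk r = 1
    · rcases z2 (nr p r) with h3 | h3
      · rw [h3, zero_mul]
      · exact absurd (h.2.2 p (hU hp) mp r (hU hr) mr q (hU hq) mq h3 hpq) hrq
    · rw [h.2.1 p (hU hp) mp r (hU hr) mr, zero_mul]
  rw [h2, hpq, h.1 p (hU hp) mp, one_mul, one_mul, add_assoc, z2_add, add_zero] at h1
  unfold cu at h1
  rwa [if_pos mq] at h1

theorem gd_of_ma {f : ℕ → ZMod 2} {T : Set ℕ} (h : Ma f T)
    (hs : ∀ p ∈ T, ∀ q ∈ T, nr p q = nr q p) {U : Finset ℕ} (hU : (U : Set ℕ) ⊆ T) : Gd f U := by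
  intro x hx p hp mp
  by_cases hq : ∃ q ∈ U, mk q = 1 ∧ nr p q = 1
  · obtain ⟨q, hq, mq, hpq⟩ := hq
    exact row h hU hx hq hp mq mp (by rw [hs q (hU hq) p (hU hp)]; exact hpq)
  · have h1 := hx p hp mp
    have h2 : ∑ r ∈ U, nr p r * (cu x r + x p) = 0 := by
      refine Finset.sum_eq_zero fun r hr => ?_
      by_cases mr : mk r = 1
      · rcases z2 (nr p r) with h3 | h3
        · rw [h3, zero_mul]
        · exact absurd ⟨r, hr, mr, h3⟩ hq
      · rw [h.2.1 p (hU hp) mp r (hU hr) mr, zero_mul]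
    rwa [h2, h.1 p (hU hp) mp, one_mul, zero_add] at h1

/-- two edges at one prime -/
theorem not_triple {f : ℕ → ZMod 2} {p q r : ℕ}
    (hs : ∀ x ∈ ({p, q, r} : Finset ℕ), ∀ y ∈ ({p, q, r} : Finset ℕ), nr x y = nr y x)
    (h0 : ∀ x ∈ ({p, q, r} : Finset ℕ), nr x x = 0)
    (mp : mk p = 1) (mq : mk q = 1) (mr : mk r = 1) (fp : f p = 1) (fq : f q = 1) (fr : f r = 1)
    (hpq' : p ≠ q) (hpr' : p ≠ r) (hqr : q ≠ r) (hpq : nr p q = 1) (hpr : nr p r = 1) :
    ¬ Gd f {p, q, r} := by
  intro h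
  have hp : p ∈ ({p, q, r} : Finset ℕ) := by simp
  have hq : q ∈ ({p, q, r} : Finset ℕ) := by simp
  have hr : r ∈ ({p, q, r} : Finset ℕ) := by simp
  have hqp : nr q p = 1 := by rw [hs q hq p hp, hpq]
  have hrp : nr r p = 1 := by rw [hs r hr p hp, hpr]
  have hrq : nr r q = nr q r := hs r hr q hq
  obtain ⟨x, hxp, hxq, hxr⟩ : ∃ x : ℕ → ZMod 2, x p = 0 ∧ x q = 1 ∧ x r = 1 :=
    ⟨fun y => if y = p then 0 else 1, if_pos rfl, if_neg (Ne.symm hpq'), if_neg (Ne.symm hpr')⟩
  have h2 := h x (by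
    have hsum : ∀ g : ℕ → ZMod 2, ∑ y ∈ ({p, q, r} : Finset ℕ), g y = g p + (g q + g r) := by
      intro g
      rw [Finset.sum_insert (by simp [hpq', hpr']), Finset.sum_pair hqr]
    intro y hy my
    rw [hsum]
    unfold cu
    rw [if_pos mp, if_pos mq, if_pos mr]
    rcases Finset.mem_insert.1 hy with e | hy
    · rw [e, h0 p hp, hpq, hpr, hxp, hxq, hxr, fp]
      decide
    · rcases Finset.mem_insert.1 hy with e | hy
      · rw [e, h0 q hq, hqp, hxp, hxq, hxr, fq]
        rcases z2 (nr q r) with h3 | h3 <;> rw [h3] <;> decide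
      · rw [Finset.mem_singleton] at hy
        rw [hy, h0 r hr, hrp, hrq, hxp, hxq, hxr, fr]
        rcases z2 (nr q r) with h3 | h3 <;> rw [h3] <;> decide) q hq mq
  rw [hxq] at h2
  exact one_ne_zero h2

theorem ma_of_gd {f : ℕ → ZMod 2} {T : Set ℕ} (h0 : ∀ p ∈ T, nr p p = 0)
    (hs : ∀ p ∈ T, ∀ q ∈ T, nr p q = nr q p)
    (h : ∀ U : Finset ℕ, (U : Set ℕ) ⊆ T → U.card ≤ 3 → Gd f U) : Ma f T := by
  have ha : ∀ p ∈ T, mk p = 1 → f p = 1 := by
    intro p hp mp
    rcases z2 (f p) with h1 | h1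
    · exfalso
      have h2 := h {p} (by simpa using hp) (by simp) (fun _ => 1) (by
        intro q hq _
        rw [Finset.mem_singleton] at hq
        subst hq
        rw [Finset.sum_singleton, h0 q hp, h1]
        ring) p (Finset.mem_singleton_self p) mp
      exact one_ne_zero h2
    · exact h1
  refine ⟨ha, fun p hp mp l hl ml => ?_, fun p hp mp q hq mq r hr mr hpq hpr => ?_⟩
  · rcases z2 (nr p l) with h1 | h1
    · exact h1
    · exfalso
      have hpl : p ≠ l := by
        rintro rfl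
        exact ml mp
      have h2 := h {p, l} (by
        intro x hx
        simp only [Finset.coe_insert, Finset.coe_singleton, Set.mem_insert_iff,
          Set.mem_singleton_iff] at hx
        rcases hx with rfl | rfl
        · exact hp
        · exact hl) ((Finset.card_le_two).trans (by norm_num)) (fun _ => 1) (by
        intro q hq mq
        rcases Finset.mem_insert.1 hq with rfl | hq
        · rw [Finset.sum_pair hpl, h0 q hp, h1, ha q hp mq]
          unfold cu
          rw [if_neg ml, zero_mul, zero_add, zero_add, one_mul]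
          exact z2_add 1
        · rw [Finset.mem_singleton] at hq
          subst hq
          exact absurd mq ml) p (Finset.mem_insert_self _ _) mp
      exact one_ne_zero h2
  · by_contra hqr
    have hpq' : p ≠ q := by
      rintro rfl
      rw [h0 p hp] at hpq
      exact zero_ne_one hpq
    have hpr' : p ≠ r := by
      rintro rfl
      rw [h0 p hp] at hpr
      exact zero_ne_one hpr
    have hsub : (({p, q, r} : Finset ℕ) : Set ℕ) ⊆ T := by
      intro x hx
      simp only [Finset.coe_insert, Finset.coe_singleton, Set.mem_insert_iff,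
        Set.mem_singleton_iff] at hx
      rcases hx with rfl | rfl | rfl
      · exact hp
      · exact hq
      · exact hr
    exact not_triple (fun x hx y hy => hs x (hsub (Finset.mem_coe.2 hx)) y
      (hsub (Finset.mem_coe.2 hy))) (fun x hx => h0 x (hsub (Finset.mem_coe.2 hx))) mp mq mr
      (ha p hp mp) (ha q hq mq) (ha r hr mr) hpq' hpr' hqr hpq hpr
      (h {p, q, r} hsub Finset.card_le_three)

/-- **all finite subsets, and those with at most three elements** -/
theorem her_iff {f : ℕ → ZMod 2} {T : Set ℕ} (h0 : ∀ p ∈ T, nr p p = 0)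
    (hs : ∀ p ∈ T, ∀ q ∈ T, nr p q = nr q p) :
    ((∀ U : Finset ℕ, (U : Set ℕ) ⊆ T → Gd f U) ↔ Ma f T) ∧
    ((∀ U : Finset ℕ, (U : Set ℕ) ⊆ T → U.card ≤ 3 → Gd f U) ↔ Ma f T) :=
  ⟨⟨fun h => ma_of_gd h0 hs fun U hU _ => h U hU, fun h _ hU => gd_of_ma h hs hU⟩,
    ⟨fun h => ma_of_gd h0 hs h, fun h _ hU _ => gd_of_ma h hs hU⟩⟩

end Pool.Agent.U120.MF
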