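import Pool.Agent.U120.MF.Mt
import Pool.Agent.U687.JT.Quad

/-!
# The primes which extend a matching; dense sets of primes; cliques
-/

set_option autoImplicit false

open scoped Classical

namespace Pool.Agent.U120.MF

open Finset Filter Topology
open Pool.Agent.U687.JT (nr2 n47 bad bad_spec quad_inert quad_split)

lemma nr2_zero {p r : ℕ} : nr2 p r = 0 ↔ IsSquare (r : ZMod p) := by
  unfold nr2
  by_cases h : IsSquare (r : ZMod p)
  · rw [if_pos h]
    exact ⟨fun _ => h, fun _ => rfl⟩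
  · rw [if_neg h]
    exact ⟨fun h1 => absurd h1 one_ne_zero, fun h1 => absurd h1 h⟩

lemma n47_one {p : ℕ} : n47 p = 1 ↔ ¬ ∃ y : ZMod p, y ^ 4 = -7 := by
  unfold n47
  by_cases h : ∃ y : ZMod p, y ^ 4 = -7
  · rw [if_pos h]
    exact ⟨fun h1 => absurd h1 zero_ne_one, fun h1 => absurd h h1⟩
  · rw [if_neg h]
    exact ⟨fun _ => h, fun _ => rfl⟩

lemma card_sub (T : Finset ℕ) (Q : ℕ → Prop) : Nat.card {i : T // Q i} = (T.filter Q).card := by
  rw [← Fintype.card_coe, ← Nat.card_eq_fintype_card]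
  exact Nat.card_congr
    { toFun := fun x => ⟨x.1.1, Finset.mem_filter.2 ⟨x.1.2, x.2⟩⟩
      invFun := fun x => ⟨⟨x.1, (Finset.mem_filter.1 x.2).1⟩, (Finset.mem_filter.1 x.2).2⟩
      left_inv := fun _ => rfl
      right_inv := fun _ => rfl }

/-- **the inert primes which extend `T`** -/
theorem ext_inert (T : Finset ℕ) (hT : ∀ p ∈ T, P4 p) (hM : Mt (T : Set ℕ)) :
    Tendsto (fun X : ℕ =>
      (((Icc 1 X).filter fun l => l.Prime ∧ l % 4 = 1 ∧ ¬ IsSquare (-7 : ZMod l) ∧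
          Mt (insert l (T : Set ℕ))).card : ℝ) /
        (((Icc 1 X).filter fun l => l.Prime ∧ l % 4 = 1 ∧ ¬ IsSquare (-7 : ZMod l)).card : ℝ)) atTop
      (𝓝 (1 / 2 ^ (T.filter Spl).card)) := by
  have h := quad_inert T hT 1 one_pos (fun u => ∀ i : T, Spl i → u i = 0)
    (fun p => Mt (insert p (T : Set ℕ))) (by
      intro p hp hpN h4 h7
      have hp4 : P4 p := ⟨hp.out, h4⟩
      rw [insert_inert (fun q hq => hT q (Finset.mem_coe.1 hq)) hM hp4 h7]
      constructor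
      · intro h q hq sq
        exact nr2_zero.1 (h ⟨q, hq⟩ sq)
      · intro h i si
        exact nr2_zero.2 (h i i.2 si))
  have e : (Nat.card {u : T → ZMod 2 // ∀ i : T, Spl i → u i = 0} : ℝ) / 2 ^ T.card =
      1 / 2 ^ (T.filter Spl).card := by
    have h1 := card_inert (ι := T) (fun i => Spl i)
    rw [Fintype.card_coe, card_sub T Spl] at h1
    have h2 : (Nat.card {u : T → ZMod 2 // ∀ i : T, Spl i → u i = 0} : ℝ) *
        2 ^ (T.filter Spl).card = 2 ^ T.card := by exact_mod_cast h1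
    rw [div_eq_div_iff (by positivity) (by positivity), h2, one_mul]
  rwa [e] at h

/-- **the split primes which extend `T`** -/
theorem ext_split (T : Finset ℕ) (hT : ∀ p ∈ T, P4 p) (hM : Mt (T : Set ℕ)) :
    Tendsto (fun X : ℕ =>
      (((Icc 1 X).filter fun l => l.Prime ∧ l % 4 = 1 ∧ IsSquare (-7 : ZMod l) ∧
          Mt (insert l (T : Set ℕ))).card : ℝ) /
        (((Icc 1 X).filter fun l => l.Prime ∧ l % 4 = 1 ∧ IsSquare (-7 : ZMod l)).card : ℝ)) atTop
      (𝓝 ((((T.filter fun q => Spl q ∧ Free T q).card + 1 : ℕ) : ℝ) / 2 ^ (T.card + 1))) := by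
  have h := quad_split T hT 1 one_pos (fun x => x.2 = 1 ∧ (∀ i : T, ¬ Spl i → x.1 i = 0) ∧
      (∀ i : T, Spl i → ∀ j : T, Spl j → x.1 i ≠ 0 → x.1 j ≠ 0 → i = j) ∧
      ∀ i : T, Spl i → x.1 i ≠ 0 → Free T i)
    (fun p => Mt (insert p (T : Set ℕ))) (by
      intro p hp hpN h4 h7
      have hp4 : P4 p := ⟨hp.out, h4⟩
      have hpT : p ∉ (T : Set ℕ) := fun hpT =>
        (bad_spec hpN).2.2.1 p (Finset.mem_coe.1 hpT) dvd_rfl
      rw [insert_split (fun q hq => hT q (Finset.mem_coe.1 hq)) hM hp4 hpT h7]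
      show n47 p = 1 ∧ (∀ i : T, ¬ Spl i → nr2 p i = 0) ∧
        (∀ i : T, Spl i → ∀ j : T, Spl j → nr2 p i ≠ 0 → nr2 p j ≠ 0 → i = j) ∧
        (∀ i : T, Spl i → nr2 p i ≠ 0 → Free T i) ↔ _
      simp only [n47_one, nr2_zero, ne_eq]
      refine and_congr Iff.rfl (and_congr ?_ (and_congr ?_ ?_))
      · exact ⟨fun h q hq => h ⟨q, hq⟩, fun h i => h i i.2⟩
      · exact ⟨fun h q hq sq r hr sr h1 h2 => congrArg Subtype.val (h ⟨q, hq⟩ sq ⟨r, hr⟩ sr h1 h2),
          fun h i si j sj h1 h2 => Subtype.ext (h i i.2 si j j.2 sj h1 h2)⟩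
      · exact ⟨fun h q hq => h ⟨q, hq⟩, fun h i => h i i.2⟩)
  have h1 := card_split (ι := T) (fun i => Spl i) (fun i => Free T i)
  rw [card_sub T (fun q => Spl q ∧ Free T q)] at h1
  rw [h1] at h
  convert h

end Pool.Agent.U120.MF
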